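import Mathlib
import Pool.Agent.H.MP_604c02_co.Main

set_option autoImplicit false

namespace Pool.Agent.Results.MP_604c02_co.Full

theorem result (n r : ℕ) (hr : 4 ≤ r) (hn : 2 * r < n) :
    IsGreatest
      {c : ℕ | ∃ A : Finset ℝ, A.card = n ∧ (∀ a ∈ A, Irrational a) ∧
        c = {B : Finset ℝ | B ⊆ A ∧ B.card = r ∧ ∃ q : ℚ, ∑ b ∈ B, b = (q : ℝ)}.ncard}
      ((n - n / r).choose (r - 1) * (n / r)) := by
  constructor
  · obtain ⟨A, h1, h2, h3⟩ :=
      Pool.Agent.H.MP_604c02_co.construction (n / r) (n - n / r) (r - 1) (by omega)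
    have hd : n / r ≤ n := Nat.div_le_self _ _
    have hc : A.card = n := by omega
    refine ⟨A, hc, h2, ?_⟩
    rw [Pool.Agent.H.MP_604c02_co.ncard_eq]
    rw [show r - 1 + 1 = r by omega] at h3
    exact le_antisymm h3 (Pool.Agent.H.MP_604c02_co.upper_bound n r hr hn A hc h2)
  · rintro c ⟨A, h1, h2, rfl⟩
    rw [Pool.Agent.H.MP_604c02_co.ncard_eq]
    exact Pool.Agent.H.MP_604c02_co.upper_bound n r hr hn A h1 h2

end Pool.Agent.Results.MP_604c02_co.Full
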